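import Pool.Agent.H458R3.HC.Final

/-!
# Two steps without half-Cohen reals can add a half-Cohen real

A function `c` from `ω` to `ω` is half-Cohen over a model if it agrees with every function of the
model at infinitely many places. There are a forcing notion `P` which adds no half-Cohen real and a
`P`-name `Q` of a forcing notion which is forced to add no half-Cohen real over the extension by
`P`, such that `P * Q` adds a half-Cohen real.

`P` is Laver forcing. In the extension by a Laver real `ℓ`, the conditions of `Q` are partial
functions bounded by `ℓ` whose domain has an infinite complement, given by names that can be read
from the nodes of a Laver tree (this is a version of Silver forcing below `ℓ`).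

* Laver forcing adds no half-Cohen real: by a fusion argument for every name `c` of a function there
  are a stronger condition and a function `h` of the ground model which is forced to be different
  from `c` everywhere.
* `Q` is forced to add no half-Cohen real over the extension by `P`: for every name `c` of a function
  one finds infinitely many free coordinates such that `c (k)` only depends on the values at the
  first `k` of them. There are only finitely many possibilities for these values because they are
  bounded by `ℓ`. So `c` is bounded by a function of the extension by `P`.
* The generic function of `P * Q` is half-Cohen over the ground model because `ℓ` dominates every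
  function of the ground model.
-/

namespace Pool.Agent.Results.MP_ea0635_lc.LaverThenSilver

open Pool.Agent.Helper669.Forcing Pool.Agent.H458R3.HC

/-- There are a forcing notion `P` which adds no half-Cohen real over the ground model and a `P`-name
`Q` for a forcing notion (forced to be nonempty) such that it is forced that `Q` adds no half-Cohen
real over the extension by `P`, but every generic extension by `P * Q` contains a half-Cohen real
over the ground model. -/
theorem result : ∃ (P : Type) (_ : Preorder P) (Q : PosetName P), Nonempty P ∧
    (∀ p : P, ∃ x : Iter P Q, x.fst ≤ p) ∧ AddsNoHalfCohen P ∧ ForcesAddsNoHalfCohen P Q ∧
    AddsHalfCohen (Iter P Q) := by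
  refine ⟨Laver, inferInstance, QQ, inferInstance, fun p => ?_, laver_addsNo, QQ_addsNo, iter_adds⟩
  exact ⟨io ⟨p.stem, p.A, p.inf, fun _ _ => none, fun _ _ _ _ _ _ h => (by cases h),
    fun _ _ _ _ h => (by cases h), fun _ _ _ m => ⟨m, le_rfl, fun _ => rfl⟩⟩, le_refl p⟩

end Pool.Agent.Results.MP_ea0635_lc.LaverThenSilver
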